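import Pool.Agent.Helper69.TPF.St2

/-!
# Module NG1 of project TPF (MP_2b710e_gt): normal generation of the kernels modulo a level
-/

set_option autoImplicit false

open scoped commutatorElement

namespace Pool.Agent.Helper72.TPF

open Pool.Agent.Helper6.TS Pool.Agent.Helper69.TPF

private theorem key (rlf : St_RLF) {g m : ℕ} (f0 f' : Surf g →* FreeGroup (Fin g))
    (v α : Fin g → FreeGroup (Fin g)) (X : Fin g × Bool → Surf g)
    (hv : GenMod (lev (FreeGroup (Fin g)) m) v) (hX : GenMod (lev (Surf g) m) X)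
    (h0 : ∀ s, f0 (X (s, false)) ∈ lev (FreeGroup (Fin g)) m ∧
      f0 (X (s, true)) * (v s)⁻¹ ∈ lev (FreeGroup (Fin g)) m)
    (hα : ∀ s, f' (X (s, false)) * (α s)⁻¹ ∈ lev (FreeGroup (Fin g)) m) (k : Surf g)
    (hk : f0 k = 1) :
    f' k ∈ Subgroup.normalClosure (Set.range α) ⊔ lev (FreeGroup (Fin g)) m := by
  let Λ : FreeGroup (Fin g × Bool) →* Surf g := FreeGroup.lift X
  let ρ : FreeGroup (Fin g × Bool) →* FreeGroup (Fin g) :=
    FreeGroup.lift fun i => if i.2 then FreeGroup.of i.1 else 1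
  let ι : FreeGroup (Fin g) →* FreeGroup (Fin g × Bool) :=
    FreeGroup.lift fun s => FreeGroup.of (s, true)
  have hΛ : ∀ i, Λ (FreeGroup.of i) = X i := fun i => FreeGroup.lift_apply_of
  have hρf : ∀ s, ρ (FreeGroup.of (s, false)) = 1 := fun s => by
    simp only [ρ, FreeGroup.lift_apply_of]; rfl
  have hρt : ∀ s, ρ (FreeGroup.of (s, true)) = FreeGroup.of s := fun s => by
    simp only [ρ, FreeGroup.lift_apply_of]; rfl
  have hι : ∀ s, ι (FreeGroup.of s) = FreeGroup.of (s, true) := fun s => FreeGroup.lift_apply_of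
  -- decomposition of `k`
  have hmem : k ∈ Λ.range ⊔ lev (Surf g) m :=
    hX.le (fun i => (le_sup_left : Λ.range ≤ _) ⟨FreeGroup.of i, hΛ i⟩) le_sup_right k
  obtain ⟨y, ⟨W, hW⟩, r, hr, hyr⟩ := Subgroup.mem_sup_of_normal_right.1 hmem
  -- the value of `f0`
  let q : FreeGroup (Fin g) →* Lq (FreeGroup (Fin g)) m := QuotientGroup.mk' _
  have hq : ∀ z, q z = 1 ↔ z ∈ lev (FreeGroup (Fin g)) m := fun z => QuotientGroup.eq_one_iff z
  have hag : q.comp (f0.comp Λ) = q.comp ((FreeGroup.lift v).comp ρ) := by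
    refine FreeGroup.ext_hom _ _ fun i => ?_
    obtain ⟨s, b⟩ := i
    cases b with
    | false =>
      show q (f0 (Λ (FreeGroup.of (s, false)))) =
        q (FreeGroup.lift v (ρ (FreeGroup.of (s, false))))
      rw [hΛ, hρf, map_one, map_one]
      exact (hq _).2 (h0 s).1
    | true =>
      show q (f0 (Λ (FreeGroup.of (s, true)))) =
        q (FreeGroup.lift v (ρ (FreeGroup.of (s, true))))
      rw [hΛ, hρt, FreeGroup.lift_apply_of, ← mul_inv_eq_one, ← map_inv, ← map_mul]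
      exact (hq _).2 (h0 s).2
  have hf0W : q (f0 (Λ W)) = 1 := by
    have h1 : q (f0 k) = 1 := by rw [hk, map_one]
    have h2 : q (f0 r) = 1 := (hq _).2 (lev_map f0 hr)
    rw [← hyr, map_mul, map_mul, h2, mul_one, ← hW] at h1
    exact h1
  have hρW : ρ W ∈ lev (FreeGroup (Fin g)) m := by
    refine rlf g m v hv (ρ W) ((hq _).1 ?_)
    have h3 : (q.comp (f0.comp Λ)) W = (q.comp ((FreeGroup.lift v).comp ρ)) W := by rw [hag]
    exact h3.symm.trans hf0W
  -- the value of `f'`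
  set N : Subgroup (FreeGroup (Fin g)) :=
    Subgroup.normalClosure (Set.range α) ⊔ lev (FreeGroup (Fin g)) m with hN
  have hNn : N.Normal := by rw [hN]; infer_instance
  let p : FreeGroup (Fin g) →* FreeGroup (Fin g) ⧸ N := QuotientGroup.mk' N
  have hp : ∀ z, p z = 1 ↔ z ∈ N := fun z => QuotientGroup.eq_one_iff z
  have hlN : ∀ z, z ∈ lev (FreeGroup (Fin g)) m → p z = 1 := fun z hz =>
    (hp z).2 ((le_sup_right : lev (FreeGroup (Fin g)) m ≤ N) hz)
  have hag2 : p.comp (f'.comp Λ) = p.comp (f'.comp (Λ.comp (ι.comp ρ))) := by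
    refine FreeGroup.ext_hom _ _ fun i => ?_
    obtain ⟨s, b⟩ := i
    cases b with
    | false =>
      show p (f' (Λ (FreeGroup.of (s, false)))) = p (f' (Λ (ι (ρ (FreeGroup.of (s, false))))))
      rw [hΛ, hρf, map_one, map_one, map_one, map_one]
      have h1 : p (f' (X (s, false)) * (α s)⁻¹) = 1 := hlN _ (hα s)
      have h2 : p (α s) = 1 := (hp _).2 ((le_sup_left : Subgroup.normalClosure (Set.range α) ≤ N)
        (Subgroup.subset_normalClosure ⟨s, rfl⟩))
      rw [map_mul, map_inv, h2, inv_one, mul_one] at h1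
      exact h1
    | true =>
      show p (f' (Λ (FreeGroup.of (s, true)))) = p (f' (Λ (ι (ρ (FreeGroup.of (s, true))))))
      rw [hρt, hι]
  have h4 : p (f' (Λ W)) = p (f' (Λ (ι (ρ W)))) := by
    have h3 : (p.comp (f'.comp Λ)) W = (p.comp (f'.comp (Λ.comp (ι.comp ρ)))) W := by rw [hag2]
    exact h3
  have h5 : p (f' (Λ (ι (ρ W)))) = 1 := hlN _ (lev_map f' (lev_map Λ (lev_map ι hρW)))
  have h6 : p (f' r) = 1 := hlN _ (lev_map f' hr)
  refine (hp _).1 ?_
  rw [← hyr, map_mul, map_mul, h6, mul_one, ← hW, h4, h5]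

theorem cNG1 (rlf : St_RLF) : St_NG1 := by
  intro g m t D v X α β x y hv hA hC
  refine ⟨fun ν hν => ?_, fun ν hν => ?_⟩
  · obtain ⟨k, hk0, hk1, -⟩ := D.n1 ν hν
    rw [← hk1]
    exact key rlf D.f0 D.f1 v α X hv hA.1 hA.2.2 (fun s => (hC.2.2.2.2 s).1) k hk0
  · obtain ⟨k, hk0, -, hk2⟩ := D.n2 ν hν
    rw [← hk2]
    exact key rlf D.f0 D.f2 v β X hv hA.1 hA.2.2 (fun s => (hC.2.2.2.2 s).2.1) k hk0

end Pool.Agent.Helper72.TPF
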